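import Pool.Agent.Helper37.KD.DefsC
import Pool.Agent.Helper37.KD.St.A5
import Pool.Agent.Helper37.KD.St.A6

/-! KD Part I, piece F2 (helper78) -/

namespace KD

open Finset

namespace I.F2

/-- pointwise bound for good pairs -/
theorem good_pair (lam Lam : ℝ) (hlam : 0 < lam) (hLam : lam ≤ Lam) (x y a b : ℝ) (hx : 0 < x)
    (hy : 0 < y) (ha : lam * x ≤ a) (ha' : a ≤ Lam * x) (hb : lam * y ≤ b) (hb' : b ≤ Lam * y)
    (κ : ℝ) (hκ : 0 ≤ κ) (hxy : y ≤ κ * x) :
    (b - a) ^ 2 / x ≤ Lam ^ 2 * (1 + κ) * ((y - x) * (Real.log y - Real.log x)) +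
      2 * (min x y * (b / y - a / x) ^ 2) := by
  have hLam0 : 0 < Lam := lt_of_lt_of_le hlam hLam
  obtain ⟨α, hα⟩ : ∃ α, α = a / x := ⟨_, rfl⟩
  obtain ⟨β, hβ⟩ : ∃ β, β = b / y := ⟨_, rfl⟩
  have ha2 : a = α * x := by rw [hα]; field_simp
  have hb2 : b = β * y := by rw [hβ]; field_simp
  rw [← hα, ← hβ]
  have hα0 : 0 ≤ α := by
    rw [hα]; exact div_nonneg (le_trans (mul_nonneg hlam.le hx.le) ha) hx.le
  have hβ0 : 0 ≤ β := by
    rw [hβ]; exact div_nonneg (le_trans (mul_nonneg hlam.le hy.le) hb) hy.le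
  have hα1 : α ≤ Lam := by rw [hα, div_le_iff₀ hx]; exact ha'
  have hβ1 : β ≤ Lam := by rw [hβ, div_le_iff₀ hy]; exact hb'
  have hm0 : 0 < min x y := lt_min hx hy
  -- |b - a| ≤ Lam |y - x| + min x y * |β - α|
  have h1 : |b - a| ≤ Lam * |y - x| + min x y * |β - α| := by
    rcases le_total x y with h | h
    · rw [min_eq_left h]
      have : b - a = β * (y - x) + x * (β - α) := by rw [ha2, hb2]; ring
      rw [this]
      refine (abs_add_le _ _).trans ?_
      rw [abs_mul, abs_mul, abs_of_nonneg hβ0, abs_of_pos hx]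
      exact add_le_add_left (mul_le_mul_of_nonneg_right hβ1 (abs_nonneg _)) _
    · rw [min_eq_right h]
      have : b - a = α * (y - x) + y * (β - α) := by rw [ha2, hb2]; ring
      rw [this]
      refine (abs_add_le _ _).trans ?_
      rw [abs_mul, abs_mul, abs_of_nonneg hα0, abs_of_pos hy]
      exact add_le_add_left (mul_le_mul_of_nonneg_right hα1 (abs_nonneg _)) _
  have h2 : (b - a) ^ 2 ≤ 2 * (Lam ^ 2 * (y - x) ^ 2) + 2 * (min x y ^ 2 * (β - α) ^ 2) := by
    have h3 : (b - a) ^ 2 ≤ (Lam * |y - x| + min x y * |β - α|) ^ 2 := by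
      rw [← sq_abs (b - a)]
      exact pow_le_pow_left₀ (abs_nonneg _) h1 2
    have h4 : |y - x| ^ 2 = (y - x) ^ 2 := sq_abs _
    have h5 : |β - α| ^ 2 = (β - α) ^ 2 := sq_abs _
    nlinarith [sq_nonneg (Lam * |y - x| - min x y * |β - α|)]
  have hE3 := E3 x y hx hy
  have hsx : √x ^ 2 = x := Real.sq_sqrt hx.le
  have hsy : √y ^ 2 = y := Real.sq_sqrt hy.le
  have h6 : (y - x) ^ 2 = (√y - √x) ^ 2 * (√y + √x) ^ 2 := by
    rw [← mul_pow]; congr 1
    linear_combination (-1 : ℝ) * hsy + hsx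
  have h7 : (√y + √x) ^ 2 ≤ 2 * (1 + κ) * x := by
    nlinarith [sq_nonneg (√y - √x)]
  have h8 : (y - x) ^ 2 ≤ (1 + κ) / 2 * x * ((y - x) * (Real.log y - Real.log x)) := by
    rw [h6]
    calc (√y - √x) ^ 2 * (√y + √x) ^ 2 ≤ (√y - √x) ^ 2 * (2 * (1 + κ) * x) :=
          mul_le_mul_of_nonneg_left h7 (sq_nonneg _)
      _ = (1 + κ) / 2 * x * (4 * (√y - √x) ^ 2) := by ring
      _ ≤ _ := mul_le_mul_of_nonneg_left hE3 (by positivity)
  have h9 : min x y ^ 2 ≤ x * min x y := by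
    rw [sq]; exact mul_le_mul_of_nonneg_right (min_le_left _ _) hm0.le
  rw [div_le_iff₀ hx]
  calc (b - a) ^ 2 ≤ 2 * (Lam ^ 2 * (y - x) ^ 2) + 2 * (min x y ^ 2 * (β - α) ^ 2) := h2
    _ ≤ 2 * (Lam ^ 2 * ((1 + κ) / 2 * x * ((y - x) * (Real.log y - Real.log x)))) +
        2 * (x * min x y * (β - α) ^ 2) := by
        refine add_le_add ?_ ?_
        · exact mul_le_mul_of_nonneg_left (mul_le_mul_of_nonneg_left h8 (sq_nonneg _)) (by norm_num)
        · exact mul_le_mul_of_nonneg_left (mul_le_mul_of_nonneg_right h9 (sq_nonneg _)) (by norm_num)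
    _ = _ := by ring

end I.F2

namespace I

/-- far part (good/bad splitting), abstract: there is `g ≥ 0` with small mass such that the rest is
small in `L²(1/u)`. -/
theorem F2.far_split (lam Lam : ℝ) (hlam : 0 < lam) (hLam : lam ≤ Lam) : ∃ C : ℝ, 0 < C ∧
    ∀ (G : Type) [Fintype G] [AddCommGroup G] (ι : Type) [Fintype ι] (wt : ι → ℝ) (ℓ : ι → G)
      (b : ι → G → ℝ) (u : G → ℝ) (W : ℝ),
    (∀ i, 0 ≤ wt i) → (∑ i, wt i ≤ W) → (∀ z, 0 < u z) → (∀ i z, lam * u z ≤ b i z) →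
    (∀ i z, b i z ≤ Lam * u z) →
    ∃ g : G → ℝ, (∀ z, 0 ≤ g z) ∧
      (∑ z, g z ≤ Lam * ∑ i, wt i *
          ∑ z, (u (z + ℓ i) - u z) * (Real.log (u (z + ℓ i)) - Real.log (u z))) ∧
      (∑ z, (∑ i, wt i * (b i (z + ℓ i) - b i z) - g z) ^ 2 / u z ≤
        C * W * ((∑ i, wt i *
            ∑ z, (u (z + ℓ i) - u z) * (Real.log (u (z + ℓ i)) - Real.log (u z)))
          + ∑ i, wt i * ∑ z, min (u z) (u (z + ℓ i)) *
            (b i (z + ℓ i) / u (z + ℓ i) - b i z / u z) ^ 2)) := by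
  classical
  have hLam0 : 0 < Lam := lt_of_lt_of_le hlam hLam
  obtain ⟨κ, hκ⟩ : ∃ κ, κ = 4 * Lam / lam := ⟨_, rfl⟩
  have hκ4 : 4 ≤ κ := by
    rw [hκ, le_div_iff₀ hlam]; linarith
  refine ⟨Lam ^ 2 * (1 + κ) + 2, by positivity, ?_⟩
  intro G _ _ ι _ wt ℓ b u W hwt hW hu hb1 hb2
  have hD0 : ∀ x y : ℝ, 0 < x → 0 < y → 0 ≤ (y - x) * (Real.log y - Real.log x) :=
    fun x y hx hy => le_trans (by positivity) (E3 x y hx hy)
  let X : ι → G → ℝ := fun i z => if κ * u z < u (z + ℓ i) then 0 else b i (z + ℓ i) - b i z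
  let Y : ι → G → ℝ := fun i z => if κ * u z < u (z + ℓ i) then b i (z + ℓ i) - b i z else 0
  have hXY : ∀ i z, b i (z + ℓ i) - b i z = X i z + Y i z := by
    intro i z
    simp only [X, Y]
    split_ifs <;> simp
  have hY0 : ∀ i z, 0 ≤ Y i z := by
    intro i z
    simp only [Y]
    split_ifs with h
    · have h1 := hb1 i (z + ℓ i)
      have h2 := hb2 i z
      have h3 : lam * (κ * u z) ≤ lam * u (z + ℓ i) := mul_le_mul_of_nonneg_left h.le hlam.le
      have h4 : lam * (κ * u z) = 4 * (Lam * u z) := by rw [hκ]; field_simp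
      have h5 : 0 < Lam * u z := mul_pos hLam0 (hu z)
      linarith
    · exact le_rfl
  have hY1 : ∀ i z, Y i z ≤
      Lam * ((u (z + ℓ i) - u z) * (Real.log (u (z + ℓ i)) - Real.log (u z))) := by
    intro i z
    simp only [Y]
    split_ifs with h
    · have h4 : 4 * u z ≤ u (z + ℓ i) :=
        (mul_le_mul_of_nonneg_right hκ4 (hu z).le).trans h.le
      have hE4 := E4 (u z) (u (z + ℓ i)) (hu z) h4
      have h1 := hb2 i (z + ℓ i)
      have h2 : 0 ≤ b i z := le_trans (mul_nonneg hlam.le (hu z).le) (hb1 i z)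
      have h3 := mul_le_mul_of_nonneg_left hE4 hLam0.le
      linarith
    · exact mul_nonneg hLam0.le (hD0 _ _ (hu _) (hu _))
  refine ⟨fun z => ∑ i, wt i * Y i z, fun z => Finset.sum_nonneg
    (fun i _ => mul_nonneg (hwt i) (hY0 i z)), ?_, ?_⟩
  · rw [Finset.sum_comm, Finset.mul_sum]
    refine Finset.sum_le_sum (fun i _ => ?_)
    rw [← Finset.mul_sum]
    calc wt i * ∑ z, Y i z ≤ wt i * ∑ z,
          Lam * ((u (z + ℓ i) - u z) * (Real.log (u (z + ℓ i)) - Real.log (u z))) :=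
          mul_le_mul_of_nonneg_left (Finset.sum_le_sum (fun z _ => hY1 i z)) (hwt i)
      _ = _ := by rw [← Finset.mul_sum]; ring
  · have h1 : ∀ z, (∑ i, wt i * (b i (z + ℓ i) - b i z) - ∑ i, wt i * Y i z) =
        ∑ i, wt i * X i z := by
      intro z
      rw [← Finset.sum_sub_distrib]
      refine Finset.sum_congr rfl (fun i _ => ?_)
      rw [hXY i z]; ring
    have h2 : ∀ z, (∑ i, wt i * X i z) ^ 2 ≤ W * ∑ i, wt i * X i z ^ 2 := by
      intro z
      have hcs := Finset.sum_mul_sq_le_sq_mul_sq Finset.univ (fun i => √(wt i))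
        (fun i => √(wt i) * X i z)
      have e1 : ∀ i, √(wt i) * (√(wt i) * X i z) = wt i * X i z := fun i => by
        rw [← mul_assoc, Real.mul_self_sqrt (hwt i)]
      have e2 : ∀ i, √(wt i) ^ 2 = wt i := fun i => Real.sq_sqrt (hwt i)
      have e3 : ∀ i, (√(wt i) * X i z) ^ 2 = wt i * X i z ^ 2 := fun i => by
        rw [mul_pow, e2]
      simp only [e1, e2, e3] at hcs
      refine hcs.trans (mul_le_mul_of_nonneg_right hW ?_)
      exact Finset.sum_nonneg (fun i _ => mul_nonneg (hwt i) (sq_nonneg _))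
    have h3 : ∀ i z, X i z ^ 2 / u z ≤
        Lam ^ 2 * (1 + κ) * ((u (z + ℓ i) - u z) * (Real.log (u (z + ℓ i)) - Real.log (u z))) +
        2 * (min (u z) (u (z + ℓ i)) * (b i (z + ℓ i) / u (z + ℓ i) - b i z / u z) ^ 2) := by
      intro i z
      simp only [X]
      split_ifs with h
      · have := hD0 _ _ (hu z) (hu (z + ℓ i))
        have : 0 < min (u z) (u (z + ℓ i)) := lt_min (hu _) (hu _)
        rw [zero_pow two_ne_zero, zero_div]
        positivity
      · exact good_pair lam Lam hlam hLam _ _ _ _ (hu _) (hu _) (hb1 i z) (hb2 i z) (hb1 i _)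
          (hb2 i _) κ (by linarith) (not_lt.mp h)
    have hW0 : 0 ≤ W := le_trans (Finset.sum_nonneg (fun i _ => hwt i)) hW
    calc ∑ z, (∑ i, wt i * (b i (z + ℓ i) - b i z) - ∑ i, wt i * Y i z) ^ 2 / u z
        ≤ ∑ z, (W * ∑ i, wt i * X i z ^ 2) / u z := by
          refine Finset.sum_le_sum (fun z _ => ?_)
          rw [h1 z]
          exact div_le_div_of_nonneg_right (h2 z) (hu z).le
      _ = W * ∑ i, wt i * ∑ z, X i z ^ 2 / u z := by
          rw [Finset.mul_sum]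
          simp_rw [Finset.mul_sum, Finset.sum_div]
          rw [Finset.sum_comm]
          refine Finset.sum_congr rfl (fun i _ => Finset.sum_congr rfl (fun z _ => ?_))
          ring
      _ ≤ W * ∑ i, wt i * ∑ z, (Lam ^ 2 * (1 + κ) *
            ((u (z + ℓ i) - u z) * (Real.log (u (z + ℓ i)) - Real.log (u z))) +
            2 * (min (u z) (u (z + ℓ i)) * (b i (z + ℓ i) / u (z + ℓ i) - b i z / u z) ^ 2)) := by
          refine mul_le_mul_of_nonneg_left (Finset.sum_le_sum (fun i _ => ?_)) hW0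
          exact mul_le_mul_of_nonneg_left (Finset.sum_le_sum (fun z _ => h3 i z)) (hwt i)
      _ = W * (Lam ^ 2 * (1 + κ) * (∑ i, wt i *
            ∑ z, (u (z + ℓ i) - u z) * (Real.log (u (z + ℓ i)) - Real.log (u z)))
          + 2 * ∑ i, wt i * ∑ z, min (u z) (u (z + ℓ i)) *
            (b i (z + ℓ i) / u (z + ℓ i) - b i z / u z) ^ 2) := by
          congr 1
          rw [Finset.mul_sum, Finset.mul_sum, ← Finset.sum_add_distrib]
          refine Finset.sum_congr rfl (fun i _ => ?_)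
          rw [Finset.sum_add_distrib, ← Finset.mul_sum, ← Finset.mul_sum]
          ring
      _ ≤ _ := by
          have hA : 0 ≤ ∑ i, wt i *
            ∑ z, (u (z + ℓ i) - u z) * (Real.log (u (z + ℓ i)) - Real.log (u z)) :=
            Finset.sum_nonneg (fun i _ => mul_nonneg (hwt i)
              (Finset.sum_nonneg (fun z _ => hD0 _ _ (hu _) (hu _))))
          have hB : 0 ≤ ∑ i, wt i * ∑ z, min (u z) (u (z + ℓ i)) *
            (b i (z + ℓ i) / u (z + ℓ i) - b i z / u z) ^ 2 :=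
            Finset.sum_nonneg (fun i _ => mul_nonneg (hwt i)
              (Finset.sum_nonneg (fun z _ => mul_nonneg (lt_min (hu _) (hu _)).le (sq_nonneg _))))
          have hc : 0 ≤ Lam ^ 2 * (1 + κ) := by positivity
          have : ∀ A B c W : ℝ, 0 ≤ A → 0 ≤ B → 0 ≤ c → 0 ≤ W →
              W * (c * A + 2 * B) ≤ (c + 2) * W * (A + B) := by
            intro A B c W hA hB hc hW
            have h1 : 0 ≤ W * A := mul_nonneg hW hA
            have h2 : 0 ≤ c * (W * B) := mul_nonneg hc (mul_nonneg hW hB)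
            nlinarith
          exact this _ _ _ _ hA hB hc hW0

end I

end KD
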