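import Pool.Agent.Helper37.KD.DefsC
import Pool.Agent.Helper37.KD.St.A5

/-! KD Part I, piece F3 (helper78) -/

namespace KD

open Finset

namespace I.F3

/-- pointwise bound for a pair of values -/
theorem pair_bound (Lam x y a b : ℝ) (hx : 0 < x) (hy : 0 < y)
    (ha : |a| ≤ Lam * x) (hb : |b| ≤ Lam * y) :
    (b - a) ^ 2 ≤ (Lam ^ 2 * ((y - x) * (Real.log y - Real.log x)) +
      2 * (min x y * (b / y - a / x) ^ 2)) * (x + y) := by
  obtain ⟨α, hα⟩ : ∃ α, α = a / x := ⟨_, rfl⟩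
  obtain ⟨β, hβ⟩ : ∃ β, β = b / y := ⟨_, rfl⟩
  have ha2 : a = α * x := by rw [hα]; field_simp
  have hb2 : b = β * y := by rw [hβ]; field_simp
  rw [← hα, ← hβ]
  have hα1 : |α| ≤ Lam := by rw [hα, abs_div, abs_of_pos hx, div_le_iff₀ hx]; exact ha
  have hβ1 : |β| ≤ Lam := by rw [hβ, abs_div, abs_of_pos hy, div_le_iff₀ hy]; exact hb
  have hm0 : 0 < min x y := lt_min hx hy
  have h1 : |b - a| ≤ Lam * |y - x| + min x y * |β - α| := by
    rcases le_total x y with h | h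
    · rw [min_eq_left h]
      have : b - a = β * (y - x) + x * (β - α) := by rw [ha2, hb2]; ring
      rw [this]
      refine (abs_add_le _ _).trans ?_
      rw [abs_mul, abs_mul, abs_of_pos hx]
      exact add_le_add_left (mul_le_mul_of_nonneg_right hβ1 (abs_nonneg _)) _
    · rw [min_eq_right h]
      have : b - a = α * (y - x) + y * (β - α) := by rw [ha2, hb2]; ring
      rw [this]
      refine (abs_add_le _ _).trans ?_
      rw [abs_mul, abs_mul, abs_of_pos hy]
      exact add_le_add_left (mul_le_mul_of_nonneg_right hα1 (abs_nonneg _)) _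
  have h2 : (b - a) ^ 2 ≤ 2 * (Lam ^ 2 * (y - x) ^ 2) + 2 * (min x y ^ 2 * (β - α) ^ 2) := by
    have h3 : (b - a) ^ 2 ≤ (Lam * |y - x| + min x y * |β - α|) ^ 2 := by
      rw [← sq_abs (b - a)]
      exact pow_le_pow_left₀ (abs_nonneg _) h1 2
    have h4 : |y - x| ^ 2 = (y - x) ^ 2 := sq_abs _
    have h5 : |β - α| ^ 2 = (β - α) ^ 2 := sq_abs _
    nlinarith [sq_nonneg (Lam * |y - x| - min x y * |β - α|)]
  have hE3 := E3 x y hx hy
  have hsx : √x ^ 2 = x := Real.sq_sqrt hx.le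
  have hsy : √y ^ 2 = y := Real.sq_sqrt hy.le
  have h6 : (y - x) ^ 2 = (√y - √x) ^ 2 * (√y + √x) ^ 2 := by
    rw [← mul_pow]; congr 1
    linear_combination (-1 : ℝ) * hsy + hsx
  have h7 : (√y + √x) ^ 2 ≤ 2 * (x + y) := by
    nlinarith [sq_nonneg (√y - √x)]
  have h8 : (y - x) ^ 2 ≤ (1 / 2) * (x + y) * ((y - x) * (Real.log y - Real.log x)) := by
    rw [h6]
    calc (√y - √x) ^ 2 * (√y + √x) ^ 2 ≤ (√y - √x) ^ 2 * (2 * (x + y)) :=
          mul_le_mul_of_nonneg_left h7 (sq_nonneg _)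
      _ = (1 / 2) * (x + y) * (4 * (√y - √x) ^ 2) := by ring
      _ ≤ _ := mul_le_mul_of_nonneg_left hE3 (by positivity)
  have h9 : min x y ^ 2 ≤ (x + y) * min x y := by
    rw [sq]; exact mul_le_mul_of_nonneg_right ((min_le_left _ _).trans (by linarith)) hm0.le
  calc (b - a) ^ 2 ≤ 2 * (Lam ^ 2 * (y - x) ^ 2) + 2 * (min x y ^ 2 * (β - α) ^ 2) := h2
    _ ≤ 2 * (Lam ^ 2 * ((1 / 2) * (x + y) * ((y - x) * (Real.log y - Real.log x)))) +
        2 * ((x + y) * min x y * (β - α) ^ 2) := by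
        refine add_le_add ?_ ?_
        · exact mul_le_mul_of_nonneg_left (mul_le_mul_of_nonneg_left h8 (sq_nonneg _)) (by norm_num)
        · exact mul_le_mul_of_nonneg_left (mul_le_mul_of_nonneg_right h9 (sq_nonneg _)) (by norm_num)
    _ = _ := by ring

variable {G : Type} [Fintype G] [AddCommGroup G]

/-- the second difference of a convolution -/
theorem second_diff (q b : G → ℝ) (z l : G) :
    (cv q b (z + l) - cv q b z) + (cv q b (z - l) - cv q b z) =
      ∑ w, (q (w + l) - q w) * (b (z - w) - b (z - w - l)) := by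
  have h1 : cv q b (z + l) = ∑ w, q (w + l) * b (z - w) := by
    rw [cv_shift_ker]; rfl
  have h2 : cv q b z = ∑ w, q (w + l) * b (z - w - l) := by
    unfold cv
    rw [← sum_shift (fun w => q w * b (z - w)) l]
    refine Finset.sum_congr rfl (fun w _ => ?_)
    rw [show z - (w + l) = z - w - l by abel]
  have h3 : cv q b z = ∑ w, q w * b (z - w) := rfl
  have h4 : cv q b (z - l) = ∑ w, q w * b (z - w - l) := by
    unfold cv
    refine Finset.sum_congr rfl (fun w _ => ?_)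
    rw [show z - l - w = z - w - l by abel]
  calc (cv q b (z + l) - cv q b z) + (cv q b (z - l) - cv q b z)
      = (∑ w, q (w + l) * b (z - w) - ∑ w, q (w + l) * b (z - w - l)) +
        (∑ w, q w * b (z - w - l) - ∑ w, q w * b (z - w)) := by
        rw [h1, h4, ← h3, ← h2]
    _ = _ := by
        rw [← Finset.sum_sub_distrib, ← Finset.sum_sub_distrib, ← Finset.sum_add_distrib]
        exact Finset.sum_congr rfl (fun w _ => by ring)

/-- Cauchy-Schwarz with weights -/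
theorem cs_wt {ι : Type*} (s : Finset ι) (q x y : ι → ℝ) (hq : ∀ i ∈ s, 0 ≤ q i) :
    (∑ i ∈ s, q i * (x i * y i)) ^ 2 ≤ (∑ i ∈ s, q i * x i ^ 2) * ∑ i ∈ s, q i * y i ^ 2 := by
  have hcs := Finset.sum_mul_sq_le_sq_mul_sq s (fun i => √(q i) * x i)
    (fun i => √(q i) * y i)
  have e1 : ∑ i ∈ s, √(q i) * x i * (√(q i) * y i) = ∑ i ∈ s, q i * (x i * y i) :=
    Finset.sum_congr rfl (fun i hi => by
      calc √(q i) * x i * (√(q i) * y i) = (√(q i) * √(q i)) * (x i * y i) := by ring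
        _ = _ := by rw [Real.mul_self_sqrt (hq i hi)])
  have e2 : ∑ i ∈ s, (√(q i) * x i) ^ 2 = ∑ i ∈ s, q i * x i ^ 2 :=
    Finset.sum_congr rfl (fun i hi => by rw [mul_pow, Real.sq_sqrt (hq i hi)])
  have e3 : ∑ i ∈ s, (√(q i) * y i) ^ 2 = ∑ i ∈ s, q i * y i ^ 2 :=
    Finset.sum_congr rfl (fun i hi => by rw [mul_pow, Real.sq_sqrt (hq i hi)])
  rwa [e1, e2, e3] at hcs

end I.F3

namespace I

open F3 in
/-- near part (second differences), abstract: `u = q*u'`, `b_i = q*b'_i` -/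
theorem F3.near_split (Lam : ℝ) (hLam : 0 < Lam) (L : ℝ) (hL : 0 ≤ L) : ∃ C : ℝ, 0 < C ∧
    ∀ (G : Type) [Fintype G] [AddCommGroup G] (ι : Type) [Fintype ι] (nm : G → ℝ) (wt : ι → ℝ)
      (ℓ : ι → G) (ng : ι → ι) (q u : G → ℝ) (b : ι → G → ℝ),
    (∀ w, 0 ≤ nm w) → (∀ w, nm (-w) = nm w) → (∀ z, 0 < q z) → (∑ z, q z = 1) →
    (∀ z w, q (z + w) ≤ Real.exp (nm w) * q z) →
    (∀ i, 0 ≤ wt i) → (∀ i, ng (ng i) = i) → (∀ i, ℓ (ng i) = - ℓ i) → (∀ i, wt (ng i) = wt i) →
    (∀ i, b (ng i) = b i) → (∀ i, nm (ℓ i) ≤ L) → (∀ z, 0 < u z) → (∀ i z, |b i z| ≤ Lam * u z) →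
    ∑ z, (∑ i, wt i * (cv q (b i) (z + ℓ i) - cv q (b i) z)) ^ 2 / cv q u z ≤
      C * (∑ i, wt i * nm (ℓ i) ^ 2) * ((∑ i, wt i *
            ∑ z, (u (z + ℓ i) - u z) * (Real.log (u (z + ℓ i)) - Real.log (u z)))
          + ∑ i, wt i * ∑ z, min (u z) (u (z + ℓ i)) *
            (b i (z + ℓ i) / u (z + ℓ i) - b i z / u z) ^ 2) := by
  refine ⟨1 / 4 * (Real.exp L ^ 2 * (1 + Real.exp L) * (Lam ^ 2 + 2)), by positivity, ?_⟩
  intro G _ _ ι _ nm wt ℓ ng q u b hnm0 hnms hq hq1 hlip hwt hng hℓ hwtn hbn hℓL hu hb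
  have hD0 : ∀ x y : ℝ, 0 < x → 0 < y → 0 ≤ (y - x) * (Real.log y - Real.log x) :=
    fun x y hx hy => le_trans (by positivity) (E3 x y hx hy)
  obtain ⟨e, he⟩ : ∃ e, e = Real.exp L := ⟨_, rfl⟩
  rw [← he]
  have he0 : 0 < e := by rw [he]; exact Real.exp_pos _
  -- the local functional
  let F : ι → G → ℝ := fun i z =>
    Lam ^ 2 * ((u z - u (z - ℓ i)) * (Real.log (u z) - Real.log (u (z - ℓ i)))) +
      2 * (min (u (z - ℓ i)) (u z) * (b i z / u z - b i (z - ℓ i) / u (z - ℓ i)) ^ 2)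
  have hF0 : ∀ i z, 0 ≤ F i z := by
    intro i z
    have h1 := hD0 _ _ (hu (z - ℓ i)) (hu z)
    have h2 : 0 < min (u (z - ℓ i)) (u z) := lt_min (hu _) (hu _)
    simp only [F]
    positivity
  -- second differences
  let T : ι → G → ℝ := fun i z => ∑ w, (q (w + ℓ i) - q w) * (b i (z - w) - b i (z - w - ℓ i))
  have hsym : ∀ z, ∑ i, wt i * (cv q (b i) (z + ℓ i) - cv q (b i) z) =
      1 / 2 * ∑ i, wt i * T i z := by
    intro z
    let engi : Equiv.Perm ι := ⟨ng, ng, hng, hng⟩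
    have h1 : ∑ i, wt i * (cv q (b i) (z + ℓ i) - cv q (b i) z) =
        ∑ i, wt i * (cv q (b i) (z - ℓ i) - cv q (b i) z) := by
      rw [← Equiv.sum_comp engi (fun i => wt i * (cv q (b i) (z + ℓ i) - cv q (b i) z))]
      refine Finset.sum_congr rfl (fun i _ => ?_)
      change wt (ng i) * (cv q (b (ng i)) (z + ℓ (ng i)) - cv q (b (ng i)) z) = _
      rw [hwtn, hbn, hℓ, ← sub_eq_add_neg]
    have h2 : ∑ i, wt i * T i z = ∑ i, wt i * (cv q (b i) (z + ℓ i) - cv q (b i) z) +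
        ∑ i, wt i * (cv q (b i) (z - ℓ i) - cv q (b i) z) := by
      rw [← Finset.sum_add_distrib]
      refine Finset.sum_congr rfl (fun i _ => ?_)
      rw [← mul_add, second_diff]
    rw [h2, ← h1]; ring
  -- bound of the kernel difference
  have hker : ∀ i w, |q (w + ℓ i) - q w| ≤ nm (ℓ i) * (e * q w) := by
    intro i w
    obtain ⟨x, hx⟩ : ∃ x, x = nm (ℓ i) := ⟨_, rfl⟩
    have hx0 : 0 ≤ x := hx ▸ hnm0 _
    have hxL : x ≤ L := hx ▸ hℓL i
    have h1 : q (w + ℓ i) ≤ Real.exp x * q w := hx ▸ hlip w (ℓ i)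
    have h2 : q w ≤ Real.exp x * q (w + ℓ i) := by
      have := hlip (w + ℓ i) (-ℓ i)
      rwa [add_neg_cancel_right, hnms, ← hx] at this
    have h3 : Real.exp x - 1 ≤ x * Real.exp x := by
      have := Real.add_one_le_exp (-x)
      rw [Real.exp_neg] at this
      have hp := Real.exp_pos x
      have h4 : (-x + 1) * Real.exp x ≤ 1 := by
        calc (-x + 1) * Real.exp x ≤ (Real.exp x)⁻¹ * Real.exp x :=
              mul_le_mul_of_nonneg_right this hp.le
          _ = 1 := inv_mul_cancel₀ hp.ne'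
      linarith
    have h4 : Real.exp x ≤ e := he ▸ Real.exp_le_exp.mpr hxL
    have h5 : Real.exp x - 1 ≤ x * e := h3.trans (mul_le_mul_of_nonneg_left h4 hx0)
    rw [← hx, abs_le]
    have hqw := hq w
    have hqw' := hq (w + ℓ i)
    constructor
    · -- q w - q (w+l) ≤ (exp x - 1) q (w + l) ≤ ... if q (w+l) ≤ q w
      by_cases hle : q (w + ℓ i) ≤ q w
      · have h6 : q w - q (w + ℓ i) ≤ (Real.exp x - 1) * q (w + ℓ i) := by linarith
        have h7 : (Real.exp x - 1) * q (w + ℓ i) ≤ (x * e) * q w :=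
          mul_le_mul h5 hle hqw'.le (by positivity)
        linarith
      · have : 0 ≤ x * (e * q w) := by positivity
        push Not at hle
        linarith
    · have h6 : q (w + ℓ i) - q w ≤ (Real.exp x - 1) * q w := by linarith
      have h7 : (Real.exp x - 1) * q w ≤ (x * e) * q w := mul_le_mul_of_nonneg_right h5 hqw.le
      linarith
  have hu0 : ∀ z, 0 < cv q u z := fun z => by
    unfold cv
    refine Finset.sum_pos (fun w _ => mul_pos (hq w) (hu _)) ⟨z, Finset.mem_univ _⟩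
  -- shift of `cv q u`
  have hushift : ∀ i z, cv q u (z - ℓ i) ≤ e * cv q u z := by
    intro i z
    rw [sub_eq_add_neg, cv_shift_ker]
    unfold cv
    rw [Finset.mul_sum]
    refine Finset.sum_le_sum (fun w _ => ?_)
    have h1 := hlip w (-ℓ i)
    rw [hnms] at h1
    have h4 : Real.exp (nm (ℓ i)) ≤ e := he ▸ Real.exp_le_exp.mpr (hℓL i)
    have h5 : q (w + -ℓ i) ≤ e * q w := h1.trans (mul_le_mul_of_nonneg_right h4 (hq w).le)
    calc q (w + -ℓ i) * u (z - w) ≤ e * q w * u (z - w) :=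
          mul_le_mul_of_nonneg_right h5 (hu _).le
      _ = _ := by ring
  -- the bound of the second difference
  have hT : ∀ i z, T i z ^ 2 ≤ nm (ℓ i) ^ 2 * (e ^ 2 * (1 + e) * (cv q u z * cv q (F i) z)) := by
    intro i z
    have h1 : |T i z| ≤ nm (ℓ i) * e *
        ∑ w, q w * (√(F i (z - w)) * √(u (z - w - ℓ i) + u (z - w))) := by
      simp only [T]
      refine (Finset.abs_sum_le_sum_abs _ _).trans ?_
      rw [Finset.mul_sum]
      refine Finset.sum_le_sum (fun w _ => ?_)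
      rw [abs_mul]
      have h2 : |b i (z - w) - b i (z - w - ℓ i)| ≤
          √(F i (z - w)) * √(u (z - w - ℓ i) + u (z - w)) := by
        rw [← Real.sqrt_mul (hF0 _ _)]
        refine Real.abs_le_sqrt ?_
        exact pair_bound Lam _ _ _ _ (hu _) (hu _) (hb i _) (hb i _)
      calc |q (w + ℓ i) - q w| * |b i (z - w) - b i (z - w - ℓ i)|
          ≤ (nm (ℓ i) * (e * q w)) * (√(F i (z - w)) * √(u (z - w - ℓ i) + u (z - w))) :=
            mul_le_mul (hker i w) h2 (abs_nonneg _)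
              (mul_nonneg (hnm0 _) (mul_nonneg he0.le (hq w).le))
        _ = _ := by ring
    have h3 : (∑ w, q w * (√(F i (z - w)) * √(u (z - w - ℓ i) + u (z - w)))) ^ 2 ≤
        cv q (F i) z * ((1 + e) * cv q u z) := by
      refine (cs_wt Finset.univ q _ _ (fun w _ => (hq w).le)).trans ?_
      have e1 : ∑ w, q w * √(F i (z - w)) ^ 2 = cv q (F i) z := by
        unfold cv
        exact Finset.sum_congr rfl (fun w _ => by rw [Real.sq_sqrt (hF0 _ _)])
      have e2 : ∑ w, q w * √(u (z - w - ℓ i) + u (z - w)) ^ 2 = cv q u (z - ℓ i) + cv q u z := by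
        unfold cv
        rw [← Finset.sum_add_distrib]
        refine Finset.sum_congr rfl (fun w _ => ?_)
        rw [Real.sq_sqrt (add_pos (hu _) (hu _)).le, show z - ℓ i - w = z - w - ℓ i by abel]
        ring
      rw [e1, e2]
      refine mul_le_mul_of_nonneg_left ?_ (cv_nonneg (fun w => (hq w).le) (hF0 i) z)
      have := hushift i z
      linarith
    have h4 : T i z ^ 2 ≤ (nm (ℓ i) * e *
        ∑ w, q w * (√(F i (z - w)) * √(u (z - w - ℓ i) + u (z - w)))) ^ 2 := by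
      rw [← sq_abs (T i z)]
      exact pow_le_pow_left₀ (abs_nonneg _) h1 2
    calc T i z ^ 2 ≤ _ := h4
      _ = nm (ℓ i) ^ 2 * e ^ 2 *
          (∑ w, q w * (√(F i (z - w)) * √(u (z - w - ℓ i) + u (z - w)))) ^ 2 := by ring
      _ ≤ nm (ℓ i) ^ 2 * e ^ 2 * (cv q (F i) z * ((1 + e) * cv q u z)) :=
          mul_le_mul_of_nonneg_left h3 (by positivity)
      _ = _ := by ring
  -- Cauchy-Schwarz over the indices
  have hcs : ∀ z, (∑ i, wt i * T i z) ^ 2 / cv q u z ≤
      (∑ i, wt i * nm (ℓ i) ^ 2) * (e ^ 2 * (1 + e) * ∑ i, wt i * cv q (F i) z) := by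
    intro z
    rw [div_le_iff₀ (hu0 z)]
    have h1 : |∑ i, wt i * T i z| ≤
        ∑ i, wt i * (nm (ℓ i) * √(e ^ 2 * (1 + e) * (cv q u z * cv q (F i) z))) := by
      refine (Finset.abs_sum_le_sum_abs _ _).trans (Finset.sum_le_sum (fun i _ => ?_))
      rw [abs_mul, abs_of_nonneg (hwt i)]
      refine mul_le_mul_of_nonneg_left ?_ (hwt i)
      refine abs_le_of_sq_le_sq ?_ (mul_nonneg (hnm0 _) (Real.sqrt_nonneg _))
      rw [mul_pow, Real.sq_sqrt]
      · exact hT i z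
      · have := cv_nonneg (fun w => (hq w).le) (hF0 i) z
        have := hu0 z
        positivity
    have h2 := cs_wt Finset.univ wt (fun i => nm (ℓ i))
      (fun i => √(e ^ 2 * (1 + e) * (cv q u z * cv q (F i) z))) (fun i _ => hwt i)
    have e1 : ∑ i, wt i * √(e ^ 2 * (1 + e) * (cv q u z * cv q (F i) z)) ^ 2 =
        (e ^ 2 * (1 + e) * ∑ i, wt i * cv q (F i) z) * cv q u z := by
      rw [Finset.mul_sum, Finset.sum_mul]
      refine Finset.sum_congr rfl (fun i _ => ?_)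
      rw [Real.sq_sqrt]
      · ring
      · have := cv_nonneg (fun w => (hq w).le) (hF0 i) z
        have := hu0 z
        positivity
    rw [e1] at h2
    calc (∑ i, wt i * T i z) ^ 2 = |∑ i, wt i * T i z| ^ 2 := (sq_abs _).symm
      _ ≤ _ := pow_le_pow_left₀ (abs_nonneg _) h1 2
      _ ≤ _ := h2
      _ = _ := by ring
  -- the sum of the local functional
  have hFsum : ∀ i, ∑ z, F i z = Lam ^ 2 *
      (∑ z, (u (z + ℓ i) - u z) * (Real.log (u (z + ℓ i)) - Real.log (u z))) +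
      2 * ∑ z, min (u z) (u (z + ℓ i)) * (b i (z + ℓ i) / u (z + ℓ i) - b i z / u z) ^ 2 := by
    intro i
    rw [← sum_shift (F i) (ℓ i)]
    simp only [F, add_sub_cancel_right]
    rw [Finset.sum_add_distrib, ← Finset.mul_sum, ← Finset.mul_sum]
  have hcvF : ∀ i, ∑ z, cv q (F i) z = ∑ z, F i z := fun i => by rw [sum_cv, hq1, one_mul]
  have hsw : ∑ z, ∑ i, wt i * cv q (F i) z = ∑ i, wt i * ∑ z, F i z := by
    rw [Finset.sum_comm]
    refine Finset.sum_congr rfl (fun i _ => ?_)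
    rw [← Finset.mul_sum, hcvF]
  set A := ∑ i, wt i * ∑ z, (u (z + ℓ i) - u z) * (Real.log (u (z + ℓ i)) - Real.log (u z))
    with hA
  set B := ∑ i, wt i * ∑ z, min (u z) (u (z + ℓ i)) *
            (b i (z + ℓ i) / u (z + ℓ i) - b i z / u z) ^ 2 with hB
  set Q := ∑ i, wt i * nm (ℓ i) ^ 2 with hQ
  have hA0 : 0 ≤ A := Finset.sum_nonneg (fun i _ => mul_nonneg (hwt i)
    (Finset.sum_nonneg (fun z _ => hD0 _ _ (hu _) (hu _))))
  have hB0 : 0 ≤ B := Finset.sum_nonneg (fun i _ => mul_nonneg (hwt i)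
    (Finset.sum_nonneg (fun z _ => mul_nonneg (lt_min (hu _) (hu _)).le (sq_nonneg _))))
  have hQ0 : 0 ≤ Q := Finset.sum_nonneg (fun i _ => mul_nonneg (hwt i) (sq_nonneg _))
  calc ∑ z, (∑ i, wt i * (cv q (b i) (z + ℓ i) - cv q (b i) z)) ^ 2 / cv q u z
      = ∑ z, 1 / 4 * ((∑ i, wt i * T i z) ^ 2 / cv q u z) := by
        refine Finset.sum_congr rfl (fun z _ => ?_)
        rw [hsym z]; ring
    _ ≤ ∑ z, 1 / 4 * (Q * (e ^ 2 * (1 + e) * ∑ i, wt i * cv q (F i) z)) :=
        Finset.sum_le_sum (fun z _ => mul_le_mul_of_nonneg_left (hcs z) (by norm_num))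
    _ = 1 / 4 * (Q * (e ^ 2 * (1 + e) * ∑ i, wt i * ∑ z, F i z)) := by
        rw [← Finset.mul_sum, ← Finset.mul_sum, ← Finset.mul_sum, hsw]
    _ = 1 / 4 * (Q * (e ^ 2 * (1 + e) * (Lam ^ 2 * A + 2 * B))) := by
        congr 4
        rw [hA, hB, Finset.mul_sum, Finset.mul_sum, ← Finset.sum_add_distrib]
        refine Finset.sum_congr rfl (fun i _ => ?_)
        rw [hFsum]; ring
    _ ≤ 1 / 4 * (Q * (e ^ 2 * (1 + e) * ((Lam ^ 2 + 2) * (A + B)))) := by
        refine mul_le_mul_of_nonneg_left (mul_le_mul_of_nonneg_left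
          (mul_le_mul_of_nonneg_left ?_ (by positivity)) hQ0) (by norm_num)
        have : 0 ≤ Lam ^ 2 * B := by positivity
        nlinarith
    _ = _ := by ring

end I

end KD
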